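import Pool.Agent.R902.SixK

/-!
The sum `∑_{k=1}^{p-1} s_k / 108^k` modulo `p`, where
`s_n = (6n)! n! / (2(2n+1) (3n)! (2n)!^2)`.
-/

set_option linter.unusedSectionVars false

namespace Pool.Agent.Results.MP_d2c11a_nt.SumCongruence

open Finset Pool.Agent.R902 Pool.Agent.R902.SixK

/-- `s_n = (6n)! n! / (2 (2n+1) (3n)! ((2n)!)^2)` -/
def s (n : ℕ) : ℚ := ((6 * n).factorial * n.factorial : ℚ) /
  (2 * (2 * n + 1) * (3 * n).factorial * ((2 * n).factorial : ℚ) ^ 2)

/-- `S_p = ∑_{k=1}^{p-1} s_k / 108^k` -/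
def S (p : ℕ) : ℚ := ∑ k ∈ Ico 1 p, s k / 108 ^ k

/-- `a = b` modulo `p` in `Z_(p)`: `a - b = p c` with the denominator of `c` prime to `p` -/
def Cong (p : ℕ) (a b : ℚ) : Prop := ∃ c : ℚ, ¬ p ∣ c.den ∧ a - b = (p : ℚ) * c

/-- `a_k = s_k / 108^k` -/
def a (k : ℕ) : ℚ := s k / 108 ^ k

theorem a_zero : a 0 = 1 / 2 := by
  simp [a, s]

theorem s_rec (k : ℕ) : ((k : ℚ) + 1) * (2 * k + 3) * s (k + 1)
    = 6 * (6 * k + 1) * (6 * k + 5) * s k := by
  have h6 : ((6 * (k + 1)).factorial : ℚ) = (6 * k + 6) * (6 * k + 5) * (6 * k + 4) *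
      (6 * k + 3) * (6 * k + 2) * (6 * k + 1) * ((6 * k).factorial : ℚ) := by
    rw [show 6 * (k + 1) = 6 * k + 1 + 1 + 1 + 1 + 1 + 1 by ring]
    simp only [Nat.factorial_succ]
    push_cast
    ring
  have h3 : ((3 * (k + 1)).factorial : ℚ) = (3 * k + 3) * (3 * k + 2) * (3 * k + 1) *
      ((3 * k).factorial : ℚ) := by
    rw [show 3 * (k + 1) = 3 * k + 1 + 1 + 1 by ring]
    simp only [Nat.factorial_succ]
    push_cast
    ring
  have h2 : ((2 * (k + 1)).factorial : ℚ) = (2 * k + 2) * (2 * k + 1) *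
      ((2 * k).factorial : ℚ) := by
    rw [show 2 * (k + 1) = 2 * k + 1 + 1 by ring]
    simp only [Nat.factorial_succ]
    push_cast
    ring
  have h1 : ((k + 1).factorial : ℚ) = (k + 1) * (k.factorial : ℚ) := by
    rw [Nat.factorial_succ]
    push_cast
    ring
  rw [s, s, h6, h3, h2, h1]
  have f3 : ((3 * k).factorial : ℚ) ≠ 0 := by exact_mod_cast Nat.factorial_ne_zero _
  have f2 : ((2 * k).factorial : ℚ) ≠ 0 := by exact_mod_cast Nat.factorial_ne_zero _
  have g1 : (2 * (k : ℚ) + 1) ≠ 0 := by positivity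
  have g2 : (2 * ((k + 1 : ℕ) : ℚ) + 1) ≠ 0 := by positivity
  have g3 : (3 * (k : ℚ) + 3) ≠ 0 := by positivity
  have g4 : (3 * (k : ℚ) + 2) ≠ 0 := by positivity
  have g5 : (3 * (k : ℚ) + 1) ≠ 0 := by positivity
  have g6 : (2 * (k : ℚ) + 2) ≠ 0 := by positivity
  rw [div_eq_mul_inv, div_eq_mul_inv]
  push_cast at g2 ⊢
  field_simp
  ring

theorem a_rec (k : ℕ) : 18 * ((k : ℚ) + 1) * (2 * k + 3) * a (k + 1)
    = (6 * k + 1) * (6 * k + 5) * a k := by
  have h := s_rec k
  have h1 : (108 : ℚ) ^ k ≠ 0 := by positivity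
  rw [a, a, pow_succ]
  field_simp
  linear_combination 18 * h

section

variable (p : ℕ) [hp : Fact p.Prime]

theorem not_dvd_18 (h3 : 3 < p) : ¬ p ∣ 18 := by
  intro h
  have h1 : p ∣ 2 * 3 ^ 2 := by norm_num; exact h
  rcases hp.1.dvd_mul.1 h1 with h2 | h2
  · have := Nat.le_of_dvd (by norm_num) h2
    omega
  · have := Nat.le_of_dvd (by norm_num) (hp.1.dvd_of_dvd_pow h2)
    omega

/-- propagation of integrality -/
theorem step (h3 : 3 < p) (k : ℕ) (h1 : ¬ p ∣ (k + 1)) (h2 : ¬ p ∣ (2 * k + 3))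
    (ha : Dv p 0 (a k)) : Dv p 0 (a (k + 1)) := by
  have hd : ¬ p ∣ 18 * (k + 1) * (2 * k + 3) := by
    intro h
    rcases hp.1.dvd_mul.1 h with h | h
    · rcases hp.1.dvd_mul.1 h with h | h
      · exact not_dvd_18 p h3 h
      · exact h1 h
    · exact h2 h
  apply Dv.of_mul hd
  have h := a_rec k
  have e : (((18 * (k + 1) * (2 * k + 3) : ℕ)) : ℚ) * a (k + 1)
      = (((6 * k + 1) * (6 * k + 5) : ℕ) : ℚ) * a k := by
    push_cast
    linear_combination h
  rw [e]
  exact (Dv.nat _).mul_left ha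

theorem int1 (h3 : 3 < p) (n : ℕ) (hn : p = 2 * n + 1) (k : ℕ) (hk : k < n) :
    Dv p 0 (a k) := by
  induction k with
  | zero =>
    rw [a_zero]
    have h := Dv.inv (p := p) (n := 2) (by
      intro h
      have := Nat.le_of_dvd (by norm_num) h
      omega)
    simpa using h
  | succ k ih =>
    apply step p h3 k _ _ (ih (by omega))
    · intro h
      have := Nat.le_of_dvd (by omega) h
      omega
    · intro h
      have := Nat.le_of_dvd (by omega) h
      omega

/-- the relation determining `s_n`, `p = 2n+1` -/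
theorem s_mid (h3 : 3 < p) (n : ℕ) (hn : p = 2 * n + 1) :
    (((p + 1).ascFactorial (n - 1) * ((2 * n).factorial) ^ 2 : ℕ) : ℚ) * s n
      = (((p + 1).ascFactorial (p - 1) * (2 * p + 1).ascFactorial (p - 3) * n.factorial : ℕ) : ℚ) :=
    by
  have e3 : (3 * n).factorial = p * (2 * n).factorial * (p + 1).ascFactorial (n - 1) := by
    rw [show 3 * n = p + (n - 1) by omega, ← Nat.factorial_mul_ascFactorial]
    congr 1
    rw [hn, Nat.factorial_succ]
  have e6 : (6 * n).factorial = p * (2 * n).factorial * (p + 1).ascFactorial (p - 1) * (2 * p) *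
      (2 * p + 1).ascFactorial (p - 3) := by
    rw [show 6 * n = 2 * p + (p - 3) by omega, ← Nat.factorial_mul_ascFactorial]
    congr 1
    obtain ⟨q, hq⟩ : ∃ q, 2 * p = q + 1 := ⟨2 * p - 1, by omega⟩
    rw [hq, Nat.factorial_succ, show q = p + (p - 1) by omega, ← Nat.factorial_mul_ascFactorial,
      show p + (p - 1) + 1 = 2 * p by omega]
    have : p.factorial = p * (2 * n).factorial := by
      rw [hn, Nat.factorial_succ]
    rw [this]
    ring
  have hpq : (2 * (n : ℚ) + 1) = (p : ℚ) := by rw [hn]; push_cast; ring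
  have hp0 : (p : ℚ) ≠ 0 := by exact_mod_cast hp.1.ne_zero
  have f2 : ((2 * n).factorial : ℚ) ≠ 0 := by exact_mod_cast Nat.factorial_ne_zero _
  have f3 : ((p + 1).ascFactorial (n - 1) : ℚ) ≠ 0 := by
    have := Nat.ascFactorial_pos (p) (n - 1)
    exact_mod_cast this.ne'
  rw [s, e3, e6, hpq]
  push_cast
  field_simp

theorem cast_asc (c m : ℕ) : (((c * p + 1).ascFactorial m : ℕ) : ZMod p) = (m.factorial : ZMod p) := by
  rw [← Nat.one_ascFactorial, Nat.ascFactorial_eq_prod_range, Nat.ascFactorial_eq_prod_range]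
  push_cast
  refine Finset.prod_congr rfl fun i _ => ?_
  rw [ZMod.natCast_self]
  ring

theorem s_mid_int (h3 : 3 < p) (n : ℕ) (hn : p = 2 * n + 1) :
    Dv p 0 (s n) ∧ 4 * ((s n : ℚ) : ZMod p) = -1 := by
  have h := s_mid p h3 n hn
  have hp0 : (p : ZMod p) = 0 := ZMod.natCast_self p
  have hfac : ∀ m, m < p → (m.factorial : ZMod p) ≠ 0 := by
    intro m hm
    rw [Ne, ZMod.natCast_eq_zero_iff, hp.1.dvd_factorial]
    omega
  have c1 := cast_asc p 1 (n - 1)
  have c2 := cast_asc p 1 (p - 1)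
  have c3 := cast_asc p 2 (p - 3)
  rw [one_mul] at c1 c2
  have hd : ¬ p ∣ (p + 1).ascFactorial (n - 1) * ((2 * n).factorial) ^ 2 := by
    intro h1
    rw [← ZMod.natCast_eq_zero_iff] at h1
    push_cast at h1
    rw [c1] at h1
    rcases mul_eq_zero.1 h1 with h2 | h2
    · exact hfac _ (by omega) h2
    · exact hfac _ (by omega) (pow_eq_zero_iff (two_ne_zero) |>.1 h2)
  have hs : Dv p 0 (s n) := by
    apply Dv.of_mul hd
    rw [h]
    exact Dv.nat _
  refine ⟨hs, ?_⟩
  have h1 := congrArg (fun x : ℚ => (x : ZMod p)) h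
  rw [Red.mul (Dv.nat _) hs, Rat.cast_natCast, Rat.cast_natCast] at h1
  push_cast at h1
  have w : ((p - 1).factorial : ZMod p) = -1 := ZMod.wilsons_lemma p
  rw [c1, c2, c3, show 2 * n = p - 1 by omega, w] at h1
  have w2 : 2 * ((p - 3).factorial : ZMod p) = -1 := by
    have e : (p - 1).factorial = (p - 1) * ((p - 2) * (p - 3).factorial) := by
      obtain ⟨q, hq⟩ : ∃ q, p = q + 3 := ⟨p - 3, by omega⟩
      rw [hq, show q + 3 - 1 = q + 1 + 1 by omega, show q + 3 - 2 = q + 1 by omega,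
        show q + 3 - 3 = q by omega, Nat.factorial_succ, Nat.factorial_succ]
    rw [e] at w
    push_cast at w
    rw [Nat.cast_sub (by omega), Nat.cast_sub (by omega), hp0] at w
    push_cast at w
    linear_combination w
  have w3 : (n.factorial : ZMod p) = n * ((n - 1).factorial : ZMod p) := by
    obtain ⟨q, hq⟩ : ∃ q, n = q + 1 := ⟨n - 1, by omega⟩
    rw [hq, Nat.factorial_succ]
    push_cast
    rfl
  have hpn : 2 * (n : ZMod p) = -1 := by
    have := congrArg (fun x : ℕ => (x : ZMod p)) hn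
    simp only [Nat.cast_add, Nat.cast_mul, Nat.cast_ofNat, Nat.cast_one] at this
    rw [hp0] at this
    linear_combination -this
  rw [w3] at h1
  apply mul_left_cancel₀ (hfac (n - 1) (by omega))
  linear_combination 4 * h1 - 2 * (n : ZMod p) * ((n - 1).factorial : ZMod p) * w2
    + ((n - 1).factorial : ZMod p) * hpn

theorem int_mid (h3 : 3 < p) (n : ℕ) (hn : p = 2 * n + 1) :
    Dv p 0 (a n) ∧ 4 * ((108 : ZMod p) ^ n * ((a n : ℚ) : ZMod p)) = -1 := by
  obtain ⟨h1, h2⟩ := s_mid_int p h3 n hn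
  have hd : ¬ p ∣ 108 ^ n := by
    intro h
    have h4 := hp.1.dvd_of_dvd_pow h
    have h5 : p ∣ 18 * 6 := h4
    rcases hp.1.dvd_mul.1 h5 with h6 | h6
    · exact not_dvd_18 p h3 h6
    · have h7 : p ∣ 18 := h6.trans (by norm_num)
      exact not_dvd_18 p h3 h7
  have e : (((108 ^ n : ℕ)) : ℚ) * a n = s n := by
    rw [a]
    push_cast
    field_simp
  have ha : Dv p 0 (a n) := by
    apply Dv.of_mul hd
    rw [e]
    exact h1
  refine ⟨ha, ?_⟩
  rw [← h2, ← e, Red.mul (Dv.nat _) ha, Rat.cast_natCast]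
  push_cast
  rfl

theorem int2 (h3 : 3 < p) (n : ℕ) (hn : p = 2 * n + 1) (j : ℕ) (hj : j ≤ n) :
    Dv p 0 (a (n + j)) := by
  induction j with
  | zero => exact (int_mid p h3 n hn).1
  | succ j ih =>
    rw [show n + (j + 1) = n + j + 1 by ring]
    apply step p h3 (n + j) _ _ (ih (by omega))
    · intro h
      have := Nat.le_of_dvd (by omega) h
      omega
    · intro h
      rw [show 2 * (n + j) + 3 = p + (2 * j + 2) by omega] at h
      have h1 := (Nat.dvd_add_right (dvd_refl p)).1 h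
      have := Nat.le_of_dvd (by omega) h1
      omega

/-- the recurrence modulo `p` -/
theorem red_rec (k : ℕ) (h0 : Dv p 0 (a k)) (h1 : Dv p 0 (a (k + 1))) :
    18 * ((k : ZMod p) + 1) * (2 * k + 3) * ((a (k + 1) : ℚ) : ZMod p)
      = (6 * k + 1) * (6 * k + 5) * ((a k : ℚ) : ZMod p) := by
  have h := a_rec k
  have e : (((18 * (k + 1) * (2 * k + 3) : ℕ)) : ℚ) * a (k + 1)
      = (((6 * k + 1) * (6 * k + 5) : ℕ) : ℚ) * a k := by
    push_cast
    linear_combination h
  have e2 := congrArg (fun x : ℚ => (x : ZMod p)) e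
  rw [Red.mul (Dv.nat _) h1, Red.mul (Dv.nat _) h0, Rat.cast_natCast, Rat.cast_natCast] at e2
  push_cast at e2
  linear_combination e2

theorem ne_of_lt (m : ℕ) (h0 : 0 < m) (h : m < p) : (m : ZMod p) ≠ 0 := by
  rw [Ne, ZMod.natCast_eq_zero_iff]
  intro h1
  have := Nat.le_of_dvd h0 h1
  omega

theorem ne18 (h3 : 3 < p) : (18 : ZMod p) ≠ 0 := by
  have : ((18 : ℕ) : ZMod p) ≠ 0 := by
    rw [Ne, ZMod.natCast_eq_zero_iff]
    exact not_dvd_18 p h3
  exact_mod_cast this

theorem red_zero (h3 : 3 < p) (n : ℕ) (hn : p = 2 * n + 1) :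
    2 * ((a 0 : ℚ) : ZMod p) = 1 := by
  have hh := int1 p h3 n hn 0 (by omega)
  have h1 := Red.mul (p := p) (Dv.nat 2) hh
  have h2 : ((2 : ℕ) : ℚ) * a 0 = 1 := by
    rw [a_zero]
    norm_num
  rw [h2, Rat.cast_natCast, Rat.cast_one] at h1
  push_cast at h1
  exact h1.symm

/-- first half of the sum -/
theorem sum1 (h3 : 3 < p) (n : ℕ) (hn : p = 2 * n + 1) (M : ℕ) (hM : M < n)
    (h : (6 * (M : ZMod p) + 1) * (6 * M + 5) = 0) :
    2 * (2 * (M : ZMod p) + 1) * ∑ k ∈ range n, ((a k : ℚ) : ZMod p) = (-1) ^ M := by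
  have key : ∀ k, k < n → 2 * (2 * (M : ZMod p) + 1) * ((a k : ℚ) : ZMod p) = ((v M k : ℤ) : ZMod p)
      := by
    intro k hk
    induction k with
    | zero =>
      have h4 := red_zero p h3 n hn
      have hv : v M 0 = 2 * M + 1 := by simp [v]; ring
      rw [hv]
      push_cast
      linear_combination (2 * (M : ZMod p) + 1) * h4
    | succ k ih =>
      have ih := ih (by omega)
      have r := red_rec p k (int1 p h3 n hn k (by omega)) (int1 p h3 n hn (k + 1) hk)
      have r2 := congrArg (fun x : ℤ => (x : ZMod p)) (v_rec M k)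
      push_cast at r2
      have u1 := ne_of_lt p (k + 1) (by omega) (by omega)
      have u2 := ne_of_lt p (2 * k + 3) (by omega) (by omega)
      have u3 := ne18 p h3
      push_cast at u1 u2
      apply mul_left_cancel₀ (mul_ne_zero (mul_ne_zero u3 u1) u2)
      linear_combination (2 * (2 * (M : ZMod p) + 1)) * r - 18 * r2
        + (6 * (k : ZMod p) + 1) * (6 * k + 5) * ih + ((v M k : ℤ) : ZMod p) * h * 1
  rw [Finset.mul_sum, Finset.sum_congr rfl fun k hk => key k (Finset.mem_range.1 hk)]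
  rw [← Int.cast_sum, sum_v M n hM]
  push_cast
  rfl

/-- second half of the sum -/
theorem sum2 (h3 : 3 < p) (n : ℕ) (hn : p = 2 * n + 1) (M : ℕ) (hM : M < n) (hodd : Odd M)
    (h : 9 * ((M : ZMod p) + 1) ^ 2 = 1) :
    ∑ j ∈ range (n + 1), ((a (n + j) : ℚ) : ZMod p) = ((a n : ℚ) : ZMod p) := by
  have hp0 : (p : ZMod p) = 0 := ZMod.natCast_self p
  have hpn : 2 * (n : ZMod p) = -1 := by
    have := congrArg (fun x : ℕ => (x : ZMod p)) hn
    simp only [Nat.cast_add, Nat.cast_mul, Nat.cast_ofNat, Nat.cast_one] at this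
    rw [hp0] at this
    linear_combination -this
  have h2 : (2 : ZMod p) ≠ 0 := by exact_mod_cast ne_of_lt p 2 (by norm_num) (by omega)
  have key : ∀ j, j ≤ n → 2 * ((a (n + j) : ℚ) : ZMod p)
      = ((a n : ℚ) : ZMod p) * ((SixK.h M j : ℤ) : ZMod p) := by
    intro j hj
    induction j with
    | zero => simp [SixK.h]; ring
    | succ j ih =>
      have ih := ih (by omega)
      have r := red_rec p (n + j) (int2 p h3 n hn j (by omega)) (int2 p h3 n hn (j + 1) hj)
      have r2 := congrArg (fun x : ℤ => (x : ZMod p)) (h_rec M j)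
      push_cast at r2 r
      have u1 := ne_of_lt p (j + 1) (by omega) (by omega)
      have u2 := ne_of_lt p (2 * j + 1) (by omega) (by omega)
      have u3 := ne18 p h3
      push_cast at u1 u2
      rw [show n + j + 1 = n + (j + 1) by ring] at r
      apply mul_left_cancel₀ (mul_ne_zero (mul_ne_zero (mul_ne_zero u3 h2) u1) u2)
      generalize ((a (n + (j + 1)) : ℚ) : ZMod p) = x1 at *
      generalize ((a (n + j) : ℚ) : ZMod p) = x0 at *
      generalize ((SixK.h M (j + 1) : ℤ) : ZMod p) = y1 at *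
      generalize ((SixK.h M j : ℤ) : ZMod p) = y0 at *
      generalize ((a n : ℚ) : ZMod p) = z at *
      linear_combination 4 * r + 2 * (6 * ((n : ZMod p) + j) + 1) * (6 * (n + j) + 5) * ih
        - 36 * z * r2 + 8 * z * y0 * h + (-36 * x1 * (4 * j + 2 * n + 4)
          + 2 * z * y0 * (36 * j + 18 * n + 9)) * hpn
  apply mul_left_cancel₀ h2
  rw [Finset.mul_sum, Finset.sum_congr rfl fun k hk => key k (by
    have := Finset.mem_range.1 hk
    omega), ← Finset.mul_sum, ← Int.cast_sum, sum_h M n hM, pow_succ, hodd.neg_one_pow]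
  push_cast
  ring

/-- the total -/
theorem total (h3 : 3 < p) (n : ℕ) (hn : p = 2 * n + 1) (M : ℕ) (hM : M < n)
    (h : (6 * (M : ZMod p) + 1) * (6 * M + 5) = 0)
    (M' : ℕ) (hM' : M' < n) (hodd : Odd M') (h' : 9 * ((M' : ZMod p) + 1) ^ 2 = 1) :
    Dv p 0 (S p) ∧ 4 * (2 * (M : ZMod p) + 1) * ((S p : ℚ) : ZMod p)
      = (2 * (M : ZMod p) + 1) * (-2 + 4 * ((a n : ℚ) : ZMod p)) + 2 * (-1) ^ M := by
  have hint : ∀ k ∈ range p, Dv p 0 (a k) := by
    intro k hk
    have hk := Finset.mem_range.1 hk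
    rcases Nat.lt_or_ge k n with h | h
    · exact int1 p h3 n hn k h
    · obtain ⟨j, rfl⟩ := Nat.exists_eq_add_of_le h
      exact int2 p h3 n hn j (by omega)
  have hS : S p = ∑ k ∈ range p, a k - a 0 := by
    rw [S, Finset.sum_Ico_eq_sub _ (by omega : 1 ≤ p), Finset.sum_range_one]
    rfl
  have h0 := int1 p h3 n hn 0 (by omega)
  have hT := Dv.sum (range p) a hint
  refine ⟨by rw [hS]; exact hT.sub h0, ?_⟩
  rw [hS, Red.sub hT h0, Red.sum _ _ hint]
  have e : range p = range (n + (n + 1)) := by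
    congr 1
    omega
  rw [e, Finset.sum_range_add, sum2 p h3 n hn M' hM' hodd h']
  have s1 := sum1 p h3 n hn M hM h
  have s0 := red_zero p h3 n hn
  linear_combination 2 * s1 - 2 * (2 * (M : ZMod p) + 1) * s0

theorem pow108 (n : ℕ) (hn : p = 2 * n + 1) (h3 : 3 < p) :
    (108 : ZMod p) ^ n = 3 ^ n := by
  have h6 : (6 : ZMod p) ≠ 0 := by
    intro h
    apply ne18 p h3
    rw [show (18 : ZMod p) = 6 * 3 by norm_num, h, zero_mul]
  rw [show (108 : ZMod p) = 6 ^ 2 * 3 by norm_num, mul_pow, ← pow_mul,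
    show 2 * n = p - 1 by omega, ZMod.pow_card_sub_one_eq_one h6, one_mul]

theorem three_pow (n : ℕ) (hn : p = 2 * n + 1) (h3 : 3 < p) :
    (3 : ZMod p) ^ n = (-1) ^ n * ((legendreSym 3 p : ℤ) : ZMod p) := by
  have : Fact (Nat.Prime 3) := ⟨Nat.prime_three⟩
  have h1 := legendreSym.eq_pow p 3
  have h2 := legendreSym.quadratic_reciprocity' (p := 3) (q := p) (by norm_num) (by omega)
  have h4 : p / 2 = n := by omega
  rw [h4] at h1 h2
  norm_num at h2
  push_cast at h1
  rw [← h1, h2]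
  push_cast
  rfl

theorem leg3 (p : ℕ) (r : ℕ) (h : p % 3 = r) :
    legendreSym 3 (p : ℤ) = legendreSym 3 (r : ℤ) := by
  rw [legendreSym.mod 3 (p : ℤ)]
  congr 1
  omega

/-- the value modulo `p` from the parameters -/
theorem value (h3 : 3 < p) (n : ℕ) (hn : p = 2 * n + 1) (M : ℕ) (hM : M < n)
    (e : ZMod p) (he : e ^ 2 = 1) (hMe : 3 * (2 * (M : ZMod p) + 1) = 2 * e)
    (h : (6 * (M : ZMod p) + 1) * (6 * M + 5) = 0)
    (M' : ℕ) (hM' : M' < n) (hodd : Odd M') (h' : 9 * ((M' : ZMod p) + 1) ^ 2 = 1)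
    (tau : ℤ) (ht : (tau : ZMod p) ^ 2 = 1) (ht' : (3 : ZMod p) ^ n = tau) :
    Dv p 0 (S p) ∧ 4 * ((S p : ℚ) : ZMod p) = -2 - tau + 3 * e * (-1) ^ M := by
  obtain ⟨h1, h2⟩ := total p h3 n hn M hM h M' hM' hodd h'
  obtain ⟨h4, h5⟩ := int_mid p h3 n hn
  refine ⟨h1, ?_⟩
  rw [pow108 p n hn h3, ht'] at h5
  have u2 : (2 : ZMod p) ≠ 0 := by exact_mod_cast ne_of_lt p 2 (by norm_num) (by omega)
  apply mul_left_cancel₀ u2
  have h6 : 4 * ((a n : ℚ) : ZMod p) = -(tau : ZMod p) := by
    linear_combination (tau : ZMod p) * h5 - 4 * ((a n : ℚ) : ZMod p) * ht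
  linear_combination 3 * e * h2 + (2 * (-2) + 2 * 4 * ((a n : ℚ) : ZMod p)
    - 8 * ((S p : ℚ) : ZMod p)) * he
    + (e * (-2 + 4 * ((a n : ℚ) : ZMod p)) - 4 * e * ((S p : ℚ) : ZMod p)) * hMe + 2 * h6

theorem leg3_one (hr : p % 3 = 1) : legendreSym 3 (p : ℤ) = 1 := by
  rw [leg3 p 1 hr]
  decide

theorem leg3_two (hr : p % 3 = 2) : legendreSym 3 (p : ℤ) = -1 := by
  rw [leg3 p 2 hr]
  decide

theorem cong_of (c : ℤ) (h3 : 3 < p) (h0 : Dv p 0 (S p)) (h : 4 * ((S p : ℚ) : ZMod p) = 4 * c) :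
    Cong p (S p) c := by
  have u2 : (2 : ZMod p) ≠ 0 := by exact_mod_cast ne_of_lt p 2 (by norm_num) (by omega)
  have h1 : ((S p : ℚ) : ZMod p) = c := by
    apply mul_left_cancel₀ (mul_ne_zero u2 u2)
    linear_combination h
  have h2 : Dv p 0 (S p - c) := h0.sub (Dv.int c)
  have h3 : ((S p - c : ℚ) : ZMod p) = 0 := by
    rw [Red.sub h0 (Dv.int c), h1, Rat.cast_intCast, sub_self]
  obtain ⟨d, hd, e⟩ := ((Red.eq_zero_iff h2).1 h3).exists_den
  rw [pow_one] at e
  exact ⟨d, hd, e⟩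

end

/-- the congruence for `S_p` -/
theorem result (p : ℕ) (hp : p.Prime) (h3 : 3 < p) :
    ((p % 12 = 1 ∨ p % 12 = 11) → Cong p (S p) 0) ∧
    ((p % 12 = 5 ∨ p % 12 = 7) → Cong p (S p) (-1)) := by
  have : Fact p.Prime := ⟨hp⟩
  have hp0 : (p : ZMod p) = 0 := ZMod.natCast_self p
  refine ⟨?_, ?_⟩
  · rintro (h | h)
    · obtain ⟨t, ht⟩ : ∃ t, p = 12 * t + 1 := ⟨p / 12, by omega⟩
      have hpt := congrArg (fun x : ℕ => (x : ZMod p)) ht
      simp only [Nat.cast_add, Nat.cast_mul, Nat.cast_ofNat, Nat.cast_one] at hpt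
      rw [hp0] at hpt
      have hl := three_pow p (6 * t) (by omega) h3
      rw [leg3_one p (by omega), show 6 * t = 2 * (3 * t) by ring, pow_mul (-1 : ZMod p),
        neg_one_sq, one_pow] at hl
      obtain ⟨v0, v1⟩ := value p h3 (6 * t) (by omega) (2 * t) (by omega) 1 (by ring)
        (by push_cast; linear_combination -hpt)
        (by push_cast; linear_combination -(12 * (t : ZMod p) + 5) * hpt)
        (4 * t - 1) (by omega) (by rw [Nat.odd_iff]; omega)
        (by
          rw [Nat.cast_sub (by omega)]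
          push_cast
          linear_combination -(12 * (t : ZMod p) - 1) * hpt)
        1 (by push_cast; ring) (by rw [show 6 * t = 2 * (3 * t) by ring, hl]; push_cast; ring)
      have := cong_of p 0 h3 v0 (by
        rw [v1, pow_mul, neg_one_sq, one_pow]
        push_cast
        ring)
      simpa using this
    · obtain ⟨t, ht⟩ : ∃ t, p = 12 * t + 11 := ⟨p / 12, by omega⟩
      have hpt := congrArg (fun x : ℕ => (x : ZMod p)) ht
      simp only [Nat.cast_add, Nat.cast_mul, Nat.cast_ofNat] at hpt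
      rw [hp0] at hpt
      have hl := three_pow p (6 * t + 5) (by omega) h3
      rw [leg3_two p (by omega), show 6 * t + 5 = 2 * (3 * t + 2) + 1 by ring, pow_succ (-1 : ZMod p),
        pow_mul (-1 : ZMod p), neg_one_sq, one_pow] at hl
      obtain ⟨v0, v1⟩ := value p h3 (6 * t + 5) (by omega) (2 * t + 1) (by omega) (-1) (by ring)
        (by push_cast; linear_combination -hpt)
        (by push_cast; linear_combination -(12 * (t : ZMod p) + 7) * hpt)
        (4 * t + 3) (by omega) (by rw [Nat.odd_iff]; omega)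
        (by
          push_cast
          linear_combination -(12 * (t : ZMod p) + 13) * hpt)
        1 (by push_cast; ring)
        (by rw [show 6 * t + 5 = 2 * (3 * t + 2) + 1 by ring, hl]; push_cast; ring)
      have := cong_of p 0 h3 v0 (by
        rw [v1, pow_succ, pow_mul, neg_one_sq, one_pow]
        push_cast
        ring)
      simpa using this
  · rintro (h | h)
    · obtain ⟨t, ht⟩ : ∃ t, p = 12 * t + 5 := ⟨p / 12, by omega⟩
      have hpt := congrArg (fun x : ℕ => (x : ZMod p)) ht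
      simp only [Nat.cast_add, Nat.cast_mul, Nat.cast_ofNat] at hpt
      rw [hp0] at hpt
      have hl := three_pow p (6 * t + 2) (by omega) h3
      rw [leg3_two p (by omega), show 6 * t + 2 = 2 * (3 * t + 1) by ring, pow_mul (-1 : ZMod p),
        neg_one_sq, one_pow] at hl
      obtain ⟨v0, v1⟩ := value p h3 (6 * t + 2) (by omega) (2 * t) (by omega) (-1) (by ring)
        (by push_cast; linear_combination -hpt)
        (by push_cast; linear_combination -(12 * (t : ZMod p) + 1) * hpt)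
        (4 * t + 1) (by omega) (by rw [Nat.odd_iff]; omega)
        (by
          push_cast
          linear_combination -(12 * (t : ZMod p) + 7) * hpt)
        (-1) (by push_cast; ring)
        (by rw [show 6 * t + 2 = 2 * (3 * t + 1) by ring, hl]; push_cast; ring)
      have := cong_of p (-1) h3 v0 (by
        rw [v1, pow_mul, neg_one_sq, one_pow]
        push_cast
        ring)
      simpa using this
    · obtain ⟨t, ht⟩ : ∃ t, p = 12 * t + 7 := ⟨p / 12, by omega⟩
      have hpt := congrArg (fun x : ℕ => (x : ZMod p)) ht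
      simp only [Nat.cast_add, Nat.cast_mul, Nat.cast_ofNat] at hpt
      rw [hp0] at hpt
      have hl := three_pow p (6 * t + 3) (by omega) h3
      rw [leg3_one p (by omega), show 6 * t + 3 = 2 * (3 * t + 1) + 1 by ring,
        pow_succ (-1 : ZMod p), pow_mul (-1 : ZMod p), neg_one_sq, one_pow] at hl
      obtain ⟨v0, v1⟩ := value p h3 (6 * t + 3) (by omega) (2 * t + 1) (by omega) 1 (by ring)
        (by push_cast; linear_combination -hpt)
        (by push_cast; linear_combination -(12 * (t : ZMod p) + 11) * hpt)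
        (4 * t + 1) (by omega) (by rw [Nat.odd_iff]; omega)
        (by
          push_cast
          linear_combination -(12 * (t : ZMod p) + 5) * hpt)
        (-1) (by push_cast; ring)
        (by rw [show 6 * t + 3 = 2 * (3 * t + 1) + 1 by ring, hl]; push_cast; ring)
      have := cong_of p (-1) h3 v0 (by
        rw [v1, pow_succ, pow_mul, neg_one_sq, one_pow]
        push_cast
        ring)
      simpa using this

end Pool.Agent.Results.MP_d2c11a_nt.SumCongruence
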